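import Pool.Agent.Helper75.SZ.Plane

/-!
# The structure of configurations with small positive circuits: statement
-/

open scoped NNReal

namespace Pool.Agent.Helper75.SZ

variable {V : Type} [AddCommGroup V] [Module ℝ V]

/-- Row sums and column sums of a `3 × 3` array of vectors are zero. -/
def Arr (v : Fin 3 → Fin 3 → V) : Prop :=
  (∀ i, v i 0 + v i 1 + v i 2 = 0) ∧ (∀ j, v 0 j + v 1 j + v 2 j = 0)

/-- The family of all coordinate vectors. -/
def fam {I J M L : Type} (u : I → V) (w : J → V) (z : M → Fin 2 → V) (v : L → Fin 3 → Fin 3 → V) :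
    I ⊕ J ⊕ (M × Fin 2) ⊕ (L × Fin 2 × Fin 2) → V :=
  Sum.elim u (Sum.elim w (Sum.elim (fun k => z k.1 k.2)
    (fun l => v l.1 (Fin.castSucc l.2.1) (Fin.castSucc l.2.2))))

/-- The data of a classification of `H`. -/
structure IsCls (H : Set V) {I J M L : Type} (u : I → V) (w : J → V) (z : M → Fin 2 → V)
    (v : L → Fin 3 → Fin 3 → V) (f : J → I) : Prop where
  li : LinearIndependent ℝ (fam u w z v)
  span : ⊤ ≤ Submodule.span ℝ (Set.range (fam u w z v))
  arr : ∀ l, Arr (v l)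
  memu : ∀ i, u i ∈ H
  memv : ∀ l i j, v l i j ∈ H
  all : ∀ h ∈ H, (∃ i, h ∈ ray (u i)) ∨
    (∃ i i', ∃ α β : ℝ, 0 ≤ α ∧ 0 ≤ β ∧ h = -(α • u i + β • u i')) ∨
    (∃ j, ∃ α β : ℝ, 0 ≤ α ∧ h = -(α • u (f j)) + β • w j) ∨
    (∃ k, h ∈ Submodule.span ℝ ({z k 0, z k 1} : Set V)) ∨
    (∃ l i j, h ∈ ray (v l i j))

/-- `H` is classified. -/
def Cls (H : Set V) : Prop :=
  ∃ (I J M L : Type) (u : I → V) (w : J → V) (z : M → Fin 2 → V) (v : L → Fin 3 → Fin 3 → V)
    (f : J → I), IsCls H u w z v f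

/-- `H` is classified, with numbered families. -/
def ClsFin (H : Set V) : Prop :=
  ∃ (a b c d : ℕ) (u : Fin a → V) (w : Fin b → V) (z : Fin c → Fin 2 → V)
    (v : Fin d → Fin 3 → Fin 3 → V) (f : Fin b → Fin a), IsCls H u w z v f

/-- A `3 × 3` grid of elements of `H`. -/
structure Grid (H : Set V) (v : Fin 3 → Fin 3 → V) : Prop where
  mem : ∀ i j, v i j ∈ H
  arr : Arr v
  li : LinearIndependent ℝ ![v 0 0, v 0 1, v 1 0, v 1 1]

end Pool.Agent.Helper75.SZ
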