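import Mathlib

/-!
# Nonnegative combinations, Caratheodory, configurations with small positive circuits
(MP_541d70_co, classification of the bodies with `Sz(2)`)
-/

open scoped NNReal

namespace Pool.Agent.Helper75.SZ

variable {V : Type} [AddCommGroup V] [Module ℝ V]

/-- Nonnegative combinations of elements of `S`. -/
def K (S : Set V) : Submodule ℝ≥0 V := Submodule.span ℝ≥0 S

/-- The open ray through `u`. -/
def ray (u : V) : Set V := {v | ∃ t : ℝ, 0 < t ∧ v = t • u}

/-- Closed under multiplication by positive numbers. -/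
def PosClosed (S : Set V) : Prop := ∀ h ∈ S, ∀ t : ℝ, 0 < t → t • h ∈ S

theorem K_mono {S T : Set V} (h : S ⊆ T) {v : V} (hv : v ∈ K S) : v ∈ K T :=
  Submodule.span_mono h hv

theorem K_mem {S : Set V} {v : V} (h : v ∈ S) : v ∈ K S := Submodule.subset_span h

theorem K_add {S : Set V} {v w : V} (hv : v ∈ K S) (hw : w ∈ K S) : v + w ∈ K S :=
  (K S).add_mem hv hw

theorem K_zero (S : Set V) : (0 : V) ∈ K S := (K S).zero_mem

theorem K_smul {S : Set V} {v : V} (hv : v ∈ K S) {t : ℝ} (ht : 0 ≤ t) : t • v ∈ K S :=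
  (K S).smul_mem (⟨t, ht⟩ : ℝ≥0) hv

/-- If all elements of `S` are nonnegative combinations of `T`, so are the elements of `K S`. -/
theorem K_le {S T : Set V} (h : ∀ s ∈ S, s ∈ K T) {v : V} (hv : v ∈ K S) : v ∈ K T :=
  Submodule.span_le.2 h hv

/-- `K S` is contained in every real subspace containing `S`. -/
theorem K_sub {S : Set V} {π : Submodule ℝ V} (h : S ⊆ π) {v : V} (hv : v ∈ K S) : v ∈ π := by
  induction hv using Submodule.span_induction with
  | mem x hx => exact h hx
  | zero => exact π.zero_mem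
  | add x y _ _ hx hy => exact π.add_mem hx hy
  | smul a x _ hx => exact π.smul_mem (a : ℝ) hx

theorem posClosed_ray (u : V) : PosClosed (ray u) := by
  rintro h ⟨s, hs, rfl⟩ t ht
  exact ⟨t * s, mul_pos ht hs, by rw [smul_smul]⟩

theorem PosClosed.union {S T : Set V} (hS : PosClosed S) (hT : PosClosed T) :
    PosClosed (S ∪ T) := by
  rintro h (hh | hh) t ht
  · exact Or.inl (hS h hh t ht)
  · exact Or.inr (hT h hh t ht)

theorem self_mem_ray (u : V) : u ∈ ray u := ⟨1, one_pos, by rw [one_smul]⟩

theorem carath_aux (n : ℕ) : ∀ (T : Finset V) (c : V → ℝ), T.card = n → (∀ t ∈ T, 0 < c t) →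
    ∃ T' : Finset V, T' ⊆ T ∧ ∃ c' : V → ℝ, (∀ t ∈ T', 0 < c' t) ∧
      LinearIndependent ℝ (fun t : T' => (t : V)) ∧ ∑ t ∈ T', c' t • t = ∑ t ∈ T, c t • t := by
  classical
  induction n using Nat.strong_induction_on with
  | _ n ih =>
    intro T c hn hc
    by_cases hli : LinearIndependent ℝ (fun t : T => (t : V))
    · exact ⟨T, subset_rfl, c, hc, hli, rfl⟩
    · obtain ⟨g, hg, i0, hi0⟩ := Fintype.not_linearIndependent_iff.1 hli
      -- a relation with a positive coefficient
      obtain ⟨g, hg, i0, hi0⟩ : ∃ g : T → ℝ, ∑ i, g i • (i : V) = 0 ∧ ∃ i, 0 < g i := by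
        rcases lt_or_gt_of_ne hi0 with h | h
        · refine ⟨fun i => -g i, ?_, i0, by simpa using h⟩
          simp only [neg_smul, Finset.sum_neg_distrib, hg, neg_zero]
        · exact ⟨g, hg, i0, h⟩
      set P : Finset T := Finset.univ.filter (fun i => 0 < g i) with hP
      have hPne : P.Nonempty := ⟨i0, by simp [hP, hi0]⟩
      obtain ⟨j, hjP, hj⟩ := P.exists_min_image (fun i => c i / g i) hPne
      have hgj : 0 < g j := by simpa [hP] using hjP
      set r : ℝ := c j / g j with hr
      have hr0 : 0 < r := div_pos (hc _ j.2) hgj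
      let G : V → ℝ := fun t => if ht : t ∈ T then g ⟨t, ht⟩ else 0
      let c1 : V → ℝ := fun t => c t - r * G t
      have hGm : ∀ i : T, G i = g i := by
        intro i
        simp [G]
      have hc1 : ∀ t ∈ T, 0 ≤ c1 t := by
        intro t ht
        have h1 : G t = g ⟨t, ht⟩ := hGm ⟨t, ht⟩
        simp only [c1, h1]
        rcases le_or_gt (g ⟨t, ht⟩) 0 with h | h
        · have := hc t ht
          nlinarith
        · have h2 := hj ⟨t, ht⟩ (by simp [hP, h])
          simp only at h2
          rw [le_div_iff₀ h] at h2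
          linarith
      have hc1j : c1 j = 0 := by
        simp only [c1, hGm]
        rw [hr, div_mul_cancel₀ _ hgj.ne']
        ring
      have hsum0 : ∑ t ∈ T, G t • t = 0 := by
        rw [← Finset.sum_coe_sort T (fun t => G t • t), ← hg]
        exact Finset.sum_congr rfl (fun i _ => by rw [hGm])
      have hsum : ∑ t ∈ T, c1 t • t = ∑ t ∈ T, c t • t := by
        simp only [c1, sub_smul, Finset.sum_sub_distrib, mul_smul]
        rw [← Finset.smul_sum, hsum0, smul_zero, sub_zero]
      set T1 : Finset V := T.filter (fun t => 0 < c1 t) with hT1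
      have hT1T : T1 ⊆ T := Finset.filter_subset _ _
      have hlt : T1.card < n := by
        rw [← hn]
        apply Finset.card_lt_card
        refine ⟨hT1T, fun hcon => ?_⟩
        have := hcon j.2
        simp only [hT1, Finset.mem_filter] at this
        rw [hc1j] at this
        exact lt_irrefl _ this.2
      have hsum1 : ∑ t ∈ T1, c1 t • t = ∑ t ∈ T, c1 t • t := by
        apply Finset.sum_subset hT1T
        intro t ht hnt
        have : c1 t = 0 := by
          simp only [hT1, Finset.mem_filter, not_and, not_lt] at hnt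
          exact le_antisymm (hnt ht) (hc1 t ht)
        rw [this, zero_smul]
      obtain ⟨T', hT', c', h1, h2, h3⟩ := ih T1.card hlt T1 c1 rfl (fun t ht => by
        simp only [hT1, Finset.mem_filter] at ht
        exact ht.2)
      exact ⟨T', hT'.trans hT1T, c', h1, h2, by rw [h3, hsum1, hsum]⟩

/-- Caratheodory: an element of `K S` is a sum of a linearly independent family of elements of `S`
(if `S` is closed under positive multiples). -/
theorem carath {S : Set V} (hS : PosClosed S) {v : V} (hv : v ∈ K S) :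
    ∃ (m : ℕ) (w : Fin m → V), LinearIndependent ℝ w ∧ (∀ i, w i ∈ S) ∧ v = ∑ i, w i := by
  classical
  obtain ⟨c, hcS, hc⟩ := (Submodule.mem_span_set (R := ℝ≥0)).1 hv
  obtain ⟨T', hT', c', h1, h2, h3⟩ := carath_aux c.support.card c.support
    (fun t => ((c t : ℝ≥0) : ℝ)) rfl (fun t ht => by
      have : c t ≠ 0 := Finsupp.mem_support_iff.1 ht
      exact NNReal.coe_pos.2 (pos_iff_ne_zero.2 this))
  have hv2 : v = ∑ t ∈ T', c' t • t := by
    rw [h3, ← hc, Finsupp.sum]
    rfl
  let e := T'.equivFin.symm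
  refine ⟨T'.card, fun i => c' (e i) • (e i : V), ?_, ?_, ?_⟩
  · have h4 : LinearIndependent ℝ (fun i => ((e i : T') : V)) :=
      h2.comp e e.injective
    have h5 := h4.units_smul (fun i => Units.mk0 (c' (e i)) (h1 _ (e i).2).ne')
    exact h5
  · intro i
    exact hS _ (hcS (hT' (e i).2)) _ (h1 _ (e i).2)
  · rw [hv2, ← Finset.sum_coe_sort T' (fun t => c' t • t)]
    exact (Equiv.sum_comp e (fun t : T' => c' t • (t : V))).symm

/-- A configuration with positive circuits of size at most three. -/
structure Good (H : Set V) : Prop where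
  pos : PosClosed H
  ne : (0 : V) ∉ H
  span : ∀ v : V, v ∈ K H
  circ : ∀ (m : ℕ) (v : Fin m → V), LinearIndependent ℝ v → (∀ i, v i ∈ H) →
    -(∑ i, v i) ∈ H → m ≤ 2

/-- Main tool: if `h ∈ H` and `-h` is a nonnegative combination of `S ⊆ H`, then two elements of `S`
suffice. -/
theorem Good.tool {H : Set V} (hG : Good H) {S : Set V} (hS : PosClosed S) (hSH : S ⊆ H) {h : V}
    (hh : h ∈ H) (hk : -h ∈ K S) :
    -h ∈ S ∨ ∃ s ∈ S, ∃ s' ∈ S, LinearIndependent ℝ ![s, s'] ∧ -h = s + s' := by
  obtain ⟨m, w, hli, hw, hsum⟩ := carath hS hk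
  have hm : m ≤ 2 := hG.circ m w hli (fun i => hSH (hw i)) (by rw [← hsum, neg_neg]; exact hh)
  interval_cases m
  · exfalso
    rw [Fin.sum_univ_zero, neg_eq_zero] at hsum
    exact hG.ne (hsum ▸ hh)
  · left
    rw [Fin.sum_univ_one] at hsum
    rw [hsum]
    exact hw 0
  · right
    rw [Fin.sum_univ_two] at hsum
    refine ⟨w 0, hw 0, w 1, hw 1, ?_, hsum⟩
    have : ![w 0, w 1] = w := by
      ext i
      fin_cases i <;> rfl
    rw [this]
    exact hli

/-- Planes containing a positive circuit with three elements. -/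
def Pl (H : Set V) (π : Submodule ℝ V) : Prop :=
  ∃ a b, a ∈ H ∧ b ∈ H ∧ -(a + b) ∈ H ∧ LinearIndependent ℝ ![a, b] ∧
    π = Submodule.span ℝ {a, b}

/-- The elements of `H` in the plane `π` off the line through `u`. -/
def off (H : Set V) (π : Submodule ℝ V) (u : V) : Set V :=
  {h | h ∈ H ∧ h ∈ π ∧ h ∉ Submodule.span ℝ {u}}

/-- Nodes: elements of two planes, essential in them. -/
def Node (H : Set V) (u : V) : Prop :=
  u ∈ H ∧ ∃ π π' : Submodule ℝ V, Pl H π ∧ Pl H π' ∧ π ≠ π' ∧ u ∈ π ∧ u ∈ π' ∧
    u ∉ K (off H π u)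

end Pool.Agent.Helper75.SZ
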