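import Pool.Agent.Helper75.SZ.Cone

/-!
# Planes with a positive circuit of three elements: the sign lemma
-/

open scoped NNReal

namespace Pool.Agent.Helper75.SZ

variable {V : Type} [AddCommGroup V] [Module ℝ V]

omit [AddCommGroup V] [Module ℝ V] in
theorem range_two (a b : V) : Set.range ![a, b] = {a, b} := by
  rw [Matrix.range_cons, Matrix.range_cons, Matrix.range_empty]
  ext x
  simp [or_comm]

theorem li_two {x u : V} : LinearIndependent ℝ ![x, u] ↔
    u ≠ 0 ∧ x ∉ Submodule.span ℝ ({u} : Set V) := by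
  rw [linearIndependent_fin2]
  simp [Submodule.mem_span_singleton]

theorem li_two' {x u : V} : LinearIndependent ℝ ![u, x] ↔
    u ≠ 0 ∧ x ∉ Submodule.span ℝ ({u} : Set V) := by
  rw [← li_two, LinearIndependent.pair_symm_iff]

theorem li_cons {m : ℕ} {y : V} {v : Fin m → V} (hv : LinearIndependent ℝ v)
    (hy : y ∉ Submodule.span ℝ (Set.range v)) :
    LinearIndependent ℝ (Fin.cons y v : Fin (m + 1) → V) :=
  linearIndependent_finCons.2 ⟨hv, hy⟩

theorem li_three {y a b : V} (h : LinearIndependent ℝ ![a, b])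
    (hy : y ∉ Submodule.span ℝ ({a, b} : Set V)) : LinearIndependent ℝ ![y, a, b] := by
  apply li_cons h
  rw [range_two]
  exact hy

theorem finrank_two {a b : V} (h : LinearIndependent ℝ ![a, b]) :
    Module.finrank ℝ (Submodule.span ℝ ({a, b} : Set V)) = 2 := by
  rw [← range_two, finrank_span_eq_card h, Fintype.card_fin]

theorem two_eq {a b x y : V} (h : LinearIndependent ℝ ![a, b]) (h' : LinearIndependent ℝ ![x, y])
    (hx : x ∈ Submodule.span ℝ ({a, b} : Set V)) (hy : y ∈ Submodule.span ℝ ({a, b} : Set V)) :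
    Submodule.span ℝ ({a, b} : Set V) = Submodule.span ℝ ({x, y} : Set V) := by
  have hfin : Module.Finite ℝ (Submodule.span ℝ ({a, b} : Set V)) :=
    Module.Finite.span_of_finite ℝ (by simp)
  symm
  apply Submodule.eq_of_le_of_finrank_eq
  · rw [Submodule.span_le]
    rintro z (rfl | rfl)
    · exact hx
    · exact hy
  · rw [finrank_two h, finrank_two h']

variable {H : Set V} {π π' : Submodule ℝ V}

theorem Pl.eq_span (hπ : Pl H π) {x y : V} (hx : x ∈ π) (hy : y ∈ π)
    (hxy : LinearIndependent ℝ ![x, y]) : π = Submodule.span ℝ {x, y} := by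
  obtain ⟨a, b, _, _, _, hab, rfl⟩ := hπ
  exact two_eq hab hxy hx hy

theorem Pl.eq_of (hπ : Pl H π) (hπ' : Pl H π') {x y : V} (hx : x ∈ π) (hy : y ∈ π)
    (hx' : x ∈ π') (hy' : y ∈ π') (hxy : LinearIndependent ℝ ![x, y]) : π = π' := by
  rw [hπ.eq_span hx hy hxy, hπ'.eq_span hx' hy' hxy]

theorem Pl.of_circ {a b : V} (ha : a ∈ H) (hb : b ∈ H) (hc : -(a + b) ∈ H)
    (hab : LinearIndependent ℝ ![a, b]) : Pl H (Submodule.span ℝ {a, b}) :=
  ⟨a, b, ha, hb, hc, hab, rfl⟩

/-- Vectors of a plane are nonnegative combinations of a circuit in it. -/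
theorem K_circ {a b v : V} (hv : v ∈ Submodule.span ℝ ({a, b} : Set V)) {S : Set V}
    (ha : a ∈ K S) (hb : b ∈ K S) (hc : -(a + b) ∈ K S) : v ∈ K S := by
  obtain ⟨x, y, rfl⟩ := Submodule.mem_span_pair.1 hv
  set m : ℝ := |x| + |y| with hm
  have hm0 : 0 ≤ m := by positivity
  have h1 := neg_abs_le x
  have h2 := neg_abs_le y
  have h3 := abs_nonneg x
  have h4 := abs_nonneg y
  have e : x • a + y • b = (x + m) • a + (y + m) • b + m • (-(a + b)) := by module
  rw [e]
  exact K_add (K_add (K_smul ha (by linarith)) (K_smul hb (by linarith))) (K_smul hc hm0)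

theorem Pl.K_mem (hπ : Pl H π) {v : V} (hv : v ∈ π) : v ∈ K (H ∩ π) := by
  obtain ⟨a, b, ha, hb, hc, _, rfl⟩ := hπ
  have h1 : a ∈ Submodule.span ℝ ({a, b} : Set V) := Submodule.subset_span (by simp)
  have h2 : b ∈ Submodule.span ℝ ({a, b} : Set V) := Submodule.subset_span (by simp)
  exact K_circ hv (Pool.Agent.Helper75.SZ.K_mem ⟨ha, h1⟩)
    (Pool.Agent.Helper75.SZ.K_mem ⟨hb, h2⟩)
    (Pool.Agent.Helper75.SZ.K_mem ⟨hc, neg_mem (add_mem h1 h2)⟩)

theorem posClosed_off (hG : Good H) (π : Submodule ℝ V) (u : V) : PosClosed (off H π u) := by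
  rintro h ⟨h1, h2, h3⟩ t ht
  refine ⟨hG.pos _ h1 t ht, π.smul_mem t h2, fun hcon => h3 ?_⟩
  have := Submodule.smul_mem _ t⁻¹ hcon
  rwa [smul_smul, inv_mul_cancel₀ ht.ne', one_smul] at this

theorem off_sub (H : Set V) (π : Submodule ℝ V) (u : V) : off H π u ⊆ H := fun _ h => h.1

theorem off_neg (H : Set V) (π : Submodule ℝ V) (u : V) : off H π (-u) = off H π u := by
  have : Submodule.span ℝ ({-u} : Set V) = Submodule.span ℝ {u} := by
    rw [← Set.neg_singleton, Submodule.span_neg]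
  unfold off
  rw [this]

theorem off_smul (H : Set V) (π : Submodule ℝ V) (u : V) {t : ℝ} (ht : t ≠ 0) :
    off H π (t • u) = off H π u := by
  have : Submodule.span ℝ ({t • u} : Set V) = Submodule.span ℝ {u} :=
    Submodule.span_singleton_smul_eq (IsUnit.mk0 t ht) u
  unfold off
  rw [this]

/-- Some direction of the line `ℝ v` is a combination of elements off the line. -/
theorem sgn0 (hπ : Pl H π) {v : V} (hv : v ∈ π) (hv0 : v ≠ 0) :
    v ∈ K (off H π v) ∨ -v ∈ K (off H π v) := by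
  obtain ⟨a, b, ha, hb, hc, hab, rfl⟩ := hπ
  have h1 : a ∈ Submodule.span ℝ ({a, b} : Set V) := Submodule.subset_span (by simp)
  have h2 : b ∈ Submodule.span ℝ ({a, b} : Set V) := Submodule.subset_span (by simp)
  have h3 : -(a + b) ∈ Submodule.span ℝ ({a, b} : Set V) := neg_mem (add_mem h1 h2)
  have key : ∀ x y z : V, x ∈ H → y ∈ H → z ∈ H → x ∈ Submodule.span ℝ ({a, b} : Set V) →
      y ∈ Submodule.span ℝ ({a, b} : Set V) → z ∈ Submodule.span ℝ ({a, b} : Set V) →
      x + y + z = 0 → LinearIndependent ℝ ![x, y] → x ∈ Submodule.span ℝ ({v} : Set V) →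
      v ∈ K (off H (Submodule.span ℝ ({a, b} : Set V)) v) ∨
        -v ∈ K (off H (Submodule.span ℝ ({a, b} : Set V)) v) := by
    intro x y z hx hy hz hx' hy' hz' hsum hli hxv
    obtain ⟨t, ht⟩ := Submodule.mem_span_singleton.1 hxv
    have hx0 : x ≠ 0 := hli.ne_zero 0
    have ht0 : t ≠ 0 := by
      rintro rfl
      rw [zero_smul] at ht
      exact hx0 ht.symm
    have hyv : y ∉ Submodule.span ℝ ({v} : Set V) := by
      intro hcon
      obtain ⟨s, hs⟩ := Submodule.mem_span_singleton.1 hcon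
      have := (LinearIndependent.pair_iff.1 hli) s (-t) (by rw [← ht, ← hs]; module)
      exact ht0 (by linarith [this.2])
    have hzv : z ∉ Submodule.span ℝ ({v} : Set V) := by
      intro hcon
      apply hyv
      have : y = -(x + z) := by
        rw [eq_neg_iff_add_eq_zero, ← hsum]
        abel
      rw [this]
      exact neg_mem (add_mem hxv hcon)
    have hk : y + z ∈ K (off H (Submodule.span ℝ ({a, b} : Set V)) v) :=
      K_add (Pool.Agent.Helper75.SZ.K_mem ⟨hy, hy', hyv⟩)
        (Pool.Agent.Helper75.SZ.K_mem ⟨hz, hz', hzv⟩)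
    have hyz : y + z = -(t • v) := by
      rw [ht, eq_neg_iff_add_eq_zero, ← hsum]
      abel
    rcases lt_or_gt_of_ne ht0 with h | h
    · left
      have e : v = (-t)⁻¹ • (y + z) := by
        rw [hyz, smul_neg, smul_smul, ← neg_smul]
        rw [show -((-t)⁻¹ * t) = 1 by rw [inv_neg]; field_simp, one_smul]
      have h5 : 0 < -t := by linarith
      have h6 := K_smul hk (inv_pos.2 h5).le
      rwa [← e] at h6
    · right
      have e : -v = t⁻¹ • (y + z) := by
        rw [hyz, smul_neg, smul_smul, inv_mul_cancel₀ ht0, one_smul]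
      have h6 := K_smul hk (inv_nonneg.2 h.le)
      rwa [← e] at h6
  by_cases ha' : a ∈ Submodule.span ℝ ({v} : Set V)
  · exact key a b (-(a + b)) ha hb hc h1 h2 h3 (by abel) hab ha'
  by_cases hb' : b ∈ Submodule.span ℝ ({v} : Set V)
  · exact key b a (-(a + b)) hb ha hc h2 h1 h3 (by abel) (LinearIndependent.pair_symm_iff.1 hab) hb'
  by_cases hc' : -(a + b) ∈ Submodule.span ℝ ({v} : Set V)
  · refine key (-(a + b)) a b hc ha hb h3 h1 h2 (by abel) ?_ hc'
    rw [LinearIndependent.pair_iff]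
    intro s t hst
    have := (LinearIndependent.pair_iff.1 hab) (t - s) (-s) (by rw [← hst]; module)
    constructor
    · linarith [this.2]
    · linarith [this.1, this.2]
  left
  exact K_circ hv (Pool.Agent.Helper75.SZ.K_mem ⟨ha, h1, ha'⟩)
    (Pool.Agent.Helper75.SZ.K_mem ⟨hb, h2, hb'⟩) (Pool.Agent.Helper75.SZ.K_mem ⟨hc, h3, hc'⟩)

/-- Nonzero combinations of elements of a plane off a line through them have two terms. -/
theorem plane_two (hG : Good H) (hπ : Pl H π) {v : V} (hv0 : v ≠ 0)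
    (hk : v ∈ K (off H π v)) :
    ∃ x ∈ off H π v, ∃ y ∈ off H π v, LinearIndependent ℝ ![x, y] ∧ v = x + y := by
  obtain ⟨m, w, hli, hw, hsum⟩ := carath (posClosed_off hG π v) hk
  have hm : m ≤ 2 := by
    obtain ⟨a, b, _, _, _, hab, rfl⟩ := hπ
    have hfin : Module.Finite ℝ (Submodule.span ℝ ({a, b} : Set V)) :=
      Module.Finite.span_of_finite ℝ (by simp)
    have h1 : Submodule.span ℝ (Set.range w) ≤ Submodule.span ℝ ({a, b} : Set V) := by
      rw [Submodule.span_le]
      rintro _ ⟨i, rfl⟩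
      exact (hw i).2.1
    have h2 := Submodule.finrank_mono h1
    rw [finrank_two hab, finrank_span_eq_card hli, Fintype.card_fin] at h2
    exact h2
  interval_cases m
  · rw [Fin.sum_univ_zero] at hsum
    exact absurd hsum hv0
  · rw [Fin.sum_univ_one] at hsum
    exfalso
    apply (hw 0).2.2
    rw [← hsum]
    exact Submodule.mem_span_singleton_self v
  · rw [Fin.sum_univ_two] at hsum
    refine ⟨w 0, hw 0, w 1, hw 1, ?_, hsum⟩
    have : ![w 0, w 1] = w := by
      ext i
      fin_cases i <;> rfl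
    rw [this]
    exact hli

/-- The sign lemma. -/
theorem sgn1 (hG : Good H) (hπ : Pl H π) (hπ' : Pl H π') (hne : π ≠ π') {v : V} (hv0 : v ≠ 0)
    (hv : v ∈ π) (hv' : v ∈ π') (h1 : v ∈ K (off H π v)) (h2 : -v ∈ K (off H π' v)) : False := by
  obtain ⟨x, hx, y, hy, hxy, hs⟩ := plane_two hG hπ hv0 h1
  obtain ⟨x', hx', y', hy', hxy', hs'⟩ := plane_two hG hπ' (neg_ne_zero.2 hv0) (by
    rw [off_neg]
    exact h2)
  rw [off_neg] at hx' hy'
  have hy0 : y ∉ π' := by
    intro hcon
    exact hne (hπ.eq_of hπ' hy.2.1 hv hcon hv' (li_two.2 ⟨hv0, hy.2.2⟩))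
  have hspan := hπ'.eq_span hx'.2.1 hy'.2.1 hxy'
  have h3 := hG.circ 3 ![y, x', y'] (li_three hxy' (by rw [← hspan]; exact hy0)) (by
    intro i
    fin_cases i
    · exact hy.1
    · exact hx'.1
    · exact hy'.1) (by
    have e : -(∑ i, ![y, x', y'] i) = x := by
      rw [Fin.sum_univ_three]
      simp only [Matrix.cons_val_zero, Matrix.cons_val_one, Matrix.cons_val_two]
      have : (![y, x', y'] 2) = y' := rfl
      have h4 : x' + y' = -v := hs'.symm
      have h5 : x = v - y := by rw [hs]; abel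
      rw [h5]
      calc -(y + x' + _) = -(y + (x' + y')) := by rw [add_assoc]; rfl
        _ = v - y := by rw [h4]; abel
    rw [e]
    exact hx.1)
  omega

/-- Two planes through a common line have a node on it. -/
theorem exists_node (hG : Good H) (hπ : Pl H π) (hπ' : Pl H π') (hne : π ≠ π') {v : V}
    (hv0 : v ≠ 0) (hv : v ∈ π) (hv' : v ∈ π') :
    ∃ u, Node H u ∧ u ∈ π ∧ u ∈ π' ∧ (u = v ∨ u = -v) := by
  -- orient `v`
  have key : ∀ u : V, u ≠ 0 → u ∈ π → u ∈ π' → u ∉ K (off H π u) → Node H u := by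
    intro u hu0 hu hu' hnot
    refine ⟨?_, π, π', hπ, hπ', hne, hu, hu', hnot⟩
    obtain ⟨m, w, hli, hw, hsum⟩ := carath (S := H ∩ π) (by
      rintro h ⟨h1, h2⟩ t ht
      exact ⟨hG.pos h h1 t ht, π.smul_mem t h2⟩) (hπ.K_mem hu)
    by_cases hall : ∀ i, w i ∉ Submodule.span ℝ ({u} : Set V)
    · exfalso
      apply hnot
      rw [hsum]
      rw [← hsum]
      have : ∑ i, w i ∈ K (off H π u) :=
        Submodule.sum_mem _ (fun i _ => K_mem ⟨(hw i).1, (hw i).2, hall i⟩)
      rwa [← hsum] at this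
    · push Not at hall
      obtain ⟨i, hi⟩ := hall
      obtain ⟨t, ht⟩ := Submodule.mem_span_singleton.1 hi
      have hwi0 : w i ≠ 0 := hli.ne_zero i
      have ht0 : t ≠ 0 := by
        rintro rfl
        rw [zero_smul] at ht
        exact hwi0 ht.symm
      -- `u = t⁻¹ • w i` and `u = ∑ w` force `t = 1` and `u = w i`
      have h1 : ∑ j, (if j = i then (1 - t⁻¹ : ℝ) else 1) • w j = 0 := by
        have h2 : t⁻¹ • w i = ∑ j, w j := by
          rw [← hsum, ← ht, smul_smul, inv_mul_cancel₀ ht0, one_smul]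
        have h3 : ∀ j, (if j = i then (1 - t⁻¹ : ℝ) else 1) • w j =
            w j - (if j = i then t⁻¹ • w i else 0) := by
          intro j
          split_ifs with h
          · subst h
            rw [sub_smul, one_smul]
          · rw [one_smul, sub_zero]
        rw [Finset.sum_congr rfl (fun j _ => h3 j), Finset.sum_sub_distrib, Finset.sum_ite_eq',
          if_pos (Finset.mem_univ _), h2, sub_self]
      have h4 := (Fintype.linearIndependent_iff.1 hli) _ h1 i
      rw [if_pos rfl] at h4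
      have h5 : t = 1 := by
        have : t⁻¹ = 1 := by linarith
        rwa [inv_eq_one] at this
      rw [h5, one_smul] at ht
      rw [ht]
      exact (hw i).1
  by_cases h : v ∈ K (off H π v)
  · -- then `-v` is the node
    refine ⟨-v, key (-v) (neg_ne_zero.2 hv0) (neg_mem hv) (neg_mem hv') ?_, neg_mem hv,
      neg_mem hv', Or.inr rfl⟩
    rw [off_neg]
    intro hcon
    rcases sgn0 hπ' hv' hv0 with h' | h'
    · exact sgn1 hG hπ' hπ (Ne.symm hne) hv0 hv' hv h' hcon
    · exact sgn1 hG hπ hπ' hne hv0 hv hv' h h'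
  · exact ⟨v, key v hv0 hv hv' h, hv, hv', Or.inl rfl⟩

theorem Node.ne_zero (hG : Good H) {u : V} (hu : Node H u) : u ≠ 0 := fun h => hG.ne (h ▸ hu.1)

/-- A node is essential in all its planes. -/
theorem Node.all (hG : Good H) {u : V} (hu : Node H u) (hπ : Pl H π) (huπ : u ∈ π) :
    u ∉ K (off H π u) ∧ -u ∈ K (off H π u) := by
  have hu0 := hu.ne_zero hG
  obtain ⟨_, π₀, π₁, h0, h1, hne, hu₀, hu₁, hnot⟩ := hu
  have hneg : -u ∈ K (off H π₀ u) := (sgn0 h0 hu₀ hu0).resolve_left hnot
  by_cases hcase : π = π₀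
  · subst hcase
    exact ⟨hnot, hneg⟩
  · have h2 : u ∉ K (off H π u) := fun hcon =>
      sgn1 hG hπ h0 hcase hu0 huπ hu₀ hcon hneg
    exact ⟨h2, (sgn0 hπ huπ hu0).resolve_left h2⟩

end Pool.Agent.Helper75.SZ
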