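import Mathlib
import Pool.Agent.Helper59.HD.Defs

/-!
# The shapes in the classification of the bodies with `Sz(2)`
-/

open scoped RealInnerProductSpace

namespace Pool.Agent.Helper75.SZ

/-- The 4-dimensional space of real `3 × 3` matrices whose row sums and column sums are zero. -/
def Zero33 : Submodule ℝ (Fin 3 → Fin 3 → ℝ) where
  carrier := {w | (∀ i, w i 0 + w i 1 + w i 2 = 0) ∧ (∀ j, w 0 j + w 1 j + w 2 j = 0)}
  zero_mem' := by simp
  add_mem' := by
    rintro a b ⟨h1, h2⟩ ⟨h3, h4⟩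
    refine ⟨fun i => ?_, fun j => ?_⟩
    · have := h1 i
      have := h3 i
      simp only [Pi.add_apply]
      linarith
    · have := h2 j
      have := h4 j
      simp only [Pi.add_apply]
      linarith
  smul_mem' := by
    rintro c a ⟨h1, h2⟩
    refine ⟨fun i => ?_, fun j => ?_⟩
    · simp only [Pi.smul_apply, smul_eq_mul]
      rw [← mul_add, ← mul_add, h1 i, mul_zero]
    · simp only [Pi.smul_apply, smul_eq_mul]
      rw [← mul_add, ← mul_add, h2 j, mul_zero]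

/-- The parameters of a set in normal form, with `a` node coordinates `x`, `b` pendant coordinates
`y`, `c` pairs of coordinates `z` and `d` blocks `w` of `3 × 3` matrices. -/
structure Shape (a b c d : ℕ) where
  /-- upper bounds of the node coordinates -/
  m : Fin a → ℝ
  /-- the conditions on pairs of node coordinates -/
  P : Fin a → Fin a → Set (ℝ × ℝ)
  /-- the node to which a pendant coordinate is attached -/
  f : Fin b → Fin a
  /-- the conditions on the pendant coordinates -/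
  Q : Fin b → Set (ℝ × ℝ)
  /-- the planar parts -/
  R : Fin c → Set (ℝ × ℝ)
  /-- the bounds in the transportation polytopes -/
  t : Fin d → Fin 3 → Fin 3 → ℝ
  convP : ∀ i j, Convex ℝ (P i j) ∧ IsClosed (P i j)
  upP : ∀ i j, ∀ p ∈ P i j, ∀ q : ℝ × ℝ, p.1 ≤ q.1 → p.2 ≤ q.2 → q ∈ P i j
  convQ : ∀ j, Convex ℝ (Q j) ∧ IsClosed (Q j)
  upQ : ∀ j, ∀ p ∈ Q j, ∀ s : ℝ, p.1 ≤ s → (s, p.2) ∈ Q j
  convR : ∀ k, Convex ℝ (R k) ∧ IsClosed (R k)

/-- The set described by a shape. -/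
def Shape.body {a b c d : ℕ} (S : Shape a b c d) :
    Set ((Fin a → ℝ) × (Fin b → ℝ) × (Fin c → ℝ × ℝ) × (Fin d → Zero33)) :=
  {p | (∀ i, p.1 i ≤ S.m i) ∧ (∀ i j, (p.1 i, p.1 j) ∈ S.P i j) ∧
    (∀ j, (p.1 (S.f j), p.2.1 j) ∈ S.Q j) ∧ (∀ k, p.2.2.1 k ∈ S.R k) ∧
    (∀ l i j, (p.2.2.2 l : Fin 3 → Fin 3 → ℝ) i j ≤ S.t l i j)}

/-- `F` has the normal form in suitable linear coordinates. -/
def TwoShape {n : ℕ} (F : Set (EuclideanSpace ℝ (Fin n))) : Prop :=
  ∃ (a b c d : ℕ) (e : EuclideanSpace ℝ (Fin n) ≃ₗ[ℝ]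
      (Fin a → ℝ) × (Fin b → ℝ) × (Fin c → ℝ × ℝ) × (Fin d → Zero33)) (S : Shape a b c d),
    ∀ p, p ∈ F ↔ e p ∈ S.body

end Pool.Agent.Helper75.SZ
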